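import Pool.Agent.HYP4.CurG
import Pool.Agent.ASP87.ExtPi

/-!
# PB_n of every hyperbolic surface with exactly one cone point is aspherical, for all n

`F : FD Γ` is a group `Γ` of isometries of the hyperbolic disc acting freely and properly discontinuously, so that
`D/Γ` is any hyperbolic surface. For `f` with simple zeros exactly at the orbit of `x0` (`Good F x0 f`), `Mg m f` is the
curve `{(z, s) : s^m = f z}` and `HG F m f` the group of all homeomorphisms of it over `D/Γ`; the quotient is `D/Γ` with
one cone point of order `m`. `PBg F n m f` is `PB_n`: tuples of `n` points of the curve in pairwise different orbits.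
-/

namespace Pool.Agent.Results.MP_a2c37e_gt.OneConePoint

open ASP87 HYP4

theorem result {Γ : Type} [Group Γ] (F : FD Γ) {x0 : ℂ} (hx0 : ‖x0‖ < 1) {n m : ℕ} (hm : 2 ≤ m) :
    (∃ f, Good F x0 f) ∧ ∀ f, Good F x0 f → ∀ r, 2 ≤ r → ∀ x : PBg F n m f,
      Subsingleton (HomotopyGroup (Fin r) (PBg F n m f) x) :=
  ⟨exists_good F hx0, fun _ hf _ hr x => pi_trivial_of_asph (asph_PBg (by omega) hx0 hf) hr x⟩

end Pool.Agent.Results.MP_a2c37e_gt.OneConePoint
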