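import Pool.Agent.TOR4.PBT
import Pool.Agent.ASP87.ExtPi

/-!
# PB_n of the torus with one cone point and any number of punctures is aspherical, for all n

`M` = the torus `ℂ/ℤ[i]` with finitely many punctures `d a` and one cone point of order `m ≥ 2` at `0`.
`Mt m d` is the curve `{(z, s) : s^m = sin(π Re z) + i sin(π Im z), z ≠ d_a mod ℤ[i]}`, `HT m d` the group of all
homeomorphisms of it over `ℂ/ℤ[i]`, with quotient `M`; `PBt n m d` is `PB_n(Mt, HT)`: the tuples of `n` points
of the curve in pairwise different orbits.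
-/

namespace Pool.Agent.Results.MP_a2c37e_gt.TorusOneCone

open ASP87 TOR4 Complex

theorem result {n m l : ℕ} (hm : 2 ≤ m) (d : Fin l → ℂ)
    (hd : ∀ a b (u v : ℤ), d a = d b + u + v * I → a = b) (hd0 : ∀ a (u v : ℤ), d a ≠ u + v * I)
    (r : ℕ) (hr : 2 ≤ r) (x : PBt n m d) : Subsingleton (HomotopyGroup (Fin r) (PBt n m d) x) :=
  pi_trivial_of_asph (asph_PBt (by omega) hd hd0) hr x

end Pool.Agent.Results.MP_a2c37e_gt.TorusOneCone
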