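import Pool.Agent.ASP87.FPB

/-!
# PB_n of the plane with at most two cone points and any number of punctures is aspherical, for all n

`M` = the complex plane with finitely many punctures `d a` and `k <= 2` cone points `c j` of order `m j >= 2`.
`MT c m d` is the curve `{(x, s) : s_j ^ (m j) = x - c j, x <> d a}`, on which the finite group `HG m` (tuples
of roots of unity) acts with quotient `M`; `PBn n c m d` is `PB_n(MT, HG)`: the tuples of `n` points of the
curve in pairwise different orbits.
-/

namespace Pool.Agent.Results.MP_a2c37e_gt.TwoConePoints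

open ASP87

theorem result {n k l : ℕ} (hk : k ≤ 2) (c : Fin k → ℂ) (m : Fin k → ℕ) (d : Fin l → ℂ)
    (hm : ∀ j, 2 ≤ m j) (hcd : Function.Injective (Sum.elim c d)) (r : ℕ) (hr : 2 ≤ r)
    (x : PBn n c m d) : Subsingleton (HomotopyGroup (Fin r) (PBn n c m d) x) :=
  pi_trivial_of_asph (asph_PBn hm hcd (Or.inr hk)) hr x

end Pool.Agent.Results.MP_a2c37e_gt.TwoConePoints
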