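import Pool.Agent.ASP87.FPB

/-!
# PB_2 of every planar orbifold with cone points and punctures is aspherical

`M` = the complex plane with finitely many punctures `d a` and finitely many cone points `c j` of order
`m j >= 2`. `MT c m d` is the curve `{(x, s) : s_j ^ (m j) = x - c j, x <> d a}`, on which the finite group
`HG m` (tuples of roots of unity) acts with quotient `M`; `PBn n c m d` is `PB_n(MT, HG)`: the tuples of `n`
points of the curve in pairwise different orbits.
-/

namespace Pool.Agent.Results.MP_a2c37e_gt.TwoParticles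

open ASP87

theorem result {k l : ℕ} (c : Fin k → ℂ) (m : Fin k → ℕ) (d : Fin l → ℂ)
    (hm : ∀ j, 2 ≤ m j) (hcd : Function.Injective (Sum.elim c d)) (r : ℕ) (hr : 2 ≤ r)
    (x : PBn 2 c m d) : Subsingleton (HomotopyGroup (Fin r) (PBn 2 c m d) x) :=
  pi_trivial_of_asph (asph_PBn hm hcd (Or.inl le_rfl)) hr x

end Pool.Agent.Results.MP_a2c37e_gt.TwoParticles
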